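import Pool.Agent.R57.KagTwo

/-!
The WSK dynamics for 3 colours on the `n × n` periodic kagome lattice (`n ≥ 2`) is ergodic exactly
for `n = 2`.

The definitions `KempeStep`, `WSKErgodic`, `honeycomb` and `kagome` are those of
`Pool.Agent.H411R2.WSK.Defs`.

Idea of the proof for `n ≥ 3`: the edges of one colour of the honeycomb graph form a perfect
matching, that is, a bijection between the two classes `A` and `B`, both of which are identified
with `(ℤ/n)²`. The product of the signs of the three permutations obtained in this way does not
change under a Kempe change. It is `1` for the colouring of the edges by their directions, and `-1`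
for another colouring, which exists for every `n ≥ 3`.
-/

set_option autoImplicit false

namespace Pool.Agent.Results.MP_11305c_co.KagomeThreeColours

open Pool.Agent.H411R2.WSK

theorem result : ∀ n : ℕ, 2 ≤ n → (WSKErgodic (kagome n) 3 ↔ n = 2) := by
  intro n hn
  constructor
  · intro h
    by_contra hcon
    exact Pool.Agent.R57.Kag.not_ergodic (by omega) h
  · rintro rfl
    exact Pool.Agent.R57.Kag.ergodic_two

end Pool.Agent.Results.MP_11305c_co.KagomeThreeColours
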